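import Pool.Agent.H20.KH.All

set_option autoImplicit false

open MeasureTheory
open scoped ENNReal

namespace Pool.Agent.Results.MP_dc1397_gt.AllBodies

/-- Euclidean space of dimension `n + 1`. -/
abbrev Space (n : ℕ) : Type := EuclideanSpace ℝ (Fin (n + 1))

/-- `Ω` is a nonempty open bounded convex set, symmetric about the origin. -/
def IsBody {n : ℕ} (Ω : Set (Space n)) : Prop :=
  IsOpen Ω ∧ Convex ℝ Ω ∧ Bornology.IsBounded Ω ∧ (∀ x ∈ Ω, -x ∈ Ω) ∧ Ω.Nonempty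

/-- The Hausdorff measure of dimension `n` in the space of dimension `n + 1`. -/
noncomputable def area {n : ℕ} (S : Set (Space n)) : ℝ≥0∞ := μH[(n : ℝ)] S

/-- `(log N)^(1/6) * (log log N)^(1/3)` with `N = n + 17`. -/
noncomputable def rate (n : ℕ) : ℝ :=
  (Real.log ((n : ℝ) + 17)) ^ ((1 : ℝ) / 6) *
    (Real.log (Real.log ((n : ℝ) + 17))) ^ ((1 : ℝ) / 3)

/-- The hyperplane inequality of the question for ALL symmetric bodies, with a constant which
grows like `(log n)^(1/6) (log log n)^(1/3)`. -/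
theorem result :
    ∃ C : ℝ, 0 < C ∧ ∀ (n : ℕ) (Ω : Set (Space n)), IsBody Ω →
      ∃ a : Space n, ‖a‖ = 1 ∧
        ∀ E : Set (Space n), MeasurableSet E → E ⊆ Ω → volume E = volume Ω / 2 →
          area {x | x ∈ Ω ∧ inner ℝ a x = (0 : ℝ)} ≤
            ENNReal.ofReal (C * rate n) * area (Ω ∩ frontier E) := by
  obtain ⟨C, hC, H⟩ := Pool.Agent.H20.KH.all_thm
  refine ⟨C, hC, ?_⟩
  rintro n Ω ⟨h1, h2, h3, h4, h5⟩
  obtain ⟨a, ha, h⟩ := H n Ω h1 h2 h3 h4 h5
  refine ⟨a, ha, fun E hE hEs hEv => ?_⟩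
  have h6 := h E hE hEs hEv
  have hr : (Pool.Agent.H73.KG.L1 (n + 1) * Pool.Agent.H73.KG.L2 (n + 1) ^ 2) ^ ((1 : ℝ) / 6) =
      rate n := by
    have hl1 := Pool.Agent.H20.KH.L1_pos (n + 1)
    have hl2 := Pool.Agent.H20.KH.L2_pos (n + 1)
    have e1 : Pool.Agent.H73.KG.L1 (n + 1) = Real.log ((n : ℝ) + 17) := by
      unfold Pool.Agent.H73.KG.L1
      congr 1
      push_cast
      ring
    have e2 : Pool.Agent.H73.KG.L2 (n + 1) = Real.log (Real.log ((n : ℝ) + 17)) := by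
      unfold Pool.Agent.H73.KG.L2
      rw [e1]
    rw [Real.mul_rpow (by linarith) (by positivity), ← Real.rpow_natCast _ 2,
      ← Real.rpow_mul hl2.le, e1, e2]
    unfold rate
    norm_num
  rw [hr] at h6
  exact h6

end Pool.Agent.Results.MP_dc1397_gt.AllBodies
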