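import Pool.Agent.H46.Cj.Final

set_option autoImplicit false

open MeasureTheory
open scoped ENNReal NNReal

namespace Pool.Agent.Results.MP_dc1397_gt.ConjInvariant

/-- The hyperplane conjecture of Kannan, Lovasz and Simonovits, in the form of the question, holds
with constant `C * sqrt r` for all symmetric convex bodies in a Euclidean space of `r`-tuples of
real `n × n` matrices (a linear subspace of all tuples with the Frobenius norm, identified with
`R^N` by a linear isometry `φ`) that are invariant under simultaneous conjugation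
`(X_1, ..., X_r) ↦ (Oᵀ X_1 O, ..., Oᵀ X_r O)` by rotations `O`. -/
theorem result :
    ∃ C : ℝ, 0 < C ∧ ∀ (r n N : ℕ)
      (φ : EuclideanSpace ℝ (Fin N) →ₗᵢ[ℝ] EuclideanSpace ℝ (Fin r × Fin n × Fin n))
      (Ω E : Set (EuclideanSpace ℝ (Fin N))),
      IsOpen Ω → Convex ℝ Ω → Bornology.IsBounded Ω →
      (∀ x ∈ Ω, -x ∈ Ω) → 0 < volume Ω →
      (∀ O : Matrix (Fin n) (Fin n) ℝ, O * O.transpose = 1 → O.det = 1 →
        ∀ x, ∃ y, (∀ l i j, φ y (l, i, j) = ∑ a, ∑ b, O a i * φ x (l, a, b) * O b j) ∧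
          (x ∈ Ω → y ∈ Ω)) →
      MeasurableSet E → E ⊆ Ω → volume E = volume Ω / 2 →
      ∃ a : EuclideanSpace ℝ (Fin N), a ≠ 0 ∧
        μH[(N : ℝ) - 1] {x | x ∈ Ω ∧ inner ℝ a x = (0 : ℝ)}
          ≤ ENNReal.ofReal (C * Real.sqrt r) * μH[(N : ℝ) - 1] (Ω ∩ frontier E) := by
  refine ⟨12410000000, by norm_num, ?_⟩
  intro r n N φ Ω E ho hc hb hs hv hinv hE hEΩ hEv
  have key : ∀ (O : Matrix (Fin n) (Fin n) ℝ) (x y : EuclideanSpace ℝ (Fin N)),
      (∀ l i j, φ y (l, i, j) = ∑ a, ∑ b, O a i * φ x (l, a, b) * O b j) →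
        φ y = Pool.Agent.H46.Cj.conj O (φ x) := by
    intro O x y h
    ext p
    obtain ⟨l, i, j⟩ := p
    rw [h l i j]
    show _ = (O.transpose * (Matrix.of fun i j => φ x (l, i, j)) * O) i j
    rw [Matrix.mul_apply]
    simp only [Matrix.mul_apply, Finset.sum_mul, Matrix.transpose_apply, Matrix.of_apply]
    exact Finset.sum_comm
  have hφ : Pool.Agent.H46.Cj.InvRange φ := by
    intro O hO hd x
    obtain ⟨y, hy, _⟩ := hinv O hO hd x
    exact ⟨y, key O x y hy⟩
  refine Pool.Agent.H46.Cj.main φ ho hc hb hs hv hφ ?_ hE hEΩ hEv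
  intro O hd x hx
  obtain ⟨y, hy, hyΩ⟩ := hinv O.1 (Pool.H97.KLS.mul_transpose_self O) hd x
  have h1 := key O.1 x y hy
  rw [← Pool.Agent.H46.Cj.conjRep_act hφ O hd] at h1
  rw [← φ.injective h1]
  exact hyΩ hx

end Pool.Agent.Results.MP_dc1397_gt.ConjInvariant
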