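import Pool.Agent.H84.Sym.Final2

set_option autoImplicit false

open MeasureTheory
open scoped ENNReal NNReal

namespace Pool.Agent.Results.MP_dc1397_gt.LinearSymmetries

variable {n : ℕ}

/-- Euclidean space `ℝ^n`. -/
abbrev V (n : ℕ) : Type := EuclideanSpace ℝ (Fin n)

/-- `Ω` is a nonempty open bounded convex set with `Ω = -Ω`. -/
def IsBody (Ω : Set (V n)) : Prop :=
  Ω.Nonempty ∧ IsOpen Ω ∧ Bornology.IsBounded Ω ∧ Convex ℝ Ω ∧ ∀ x ∈ Ω, -x ∈ Ω

/-- The linear map `g - 1`. -/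
noncomputable def displacement (g : V n →ₗ[ℝ] V n) : V n →ₗ[ℝ] V n := g - LinearMap.id

/-- The space of the vectors fixed by all `g` in `G`. -/
noncomputable def fixedSpace (G : Set (V n →ₗ[ℝ] V n)) : Submodule ℝ (V n) :=
  ⨅ g ∈ G, LinearMap.ker (displacement g)

/-- Every `g` in `G` is a linear map with `g (Ω) = Ω` and `g - 1` of rank at most `m`, and the
space of the vectors fixed by all `g` in `G` has dimension at most `d`. -/
def IsSymmetrySet (m d : ℕ) (Ω : Set (V n)) (G : Set (V n →ₗ[ℝ] V n)) : Prop :=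
  (∀ g ∈ G, g '' Ω = Ω ∧ Module.finrank ℝ (LinearMap.range (displacement g)) ≤ m) ∧
    Module.finrank ℝ (fixedSpace G) ≤ d

/-- The second moment of the functional `b` on `Ω`. -/
noncomputable def secondMoment (Ω : Set (V n)) (b : V n) : ℝ := ∫ x in Ω, (inner ℝ b x) ^ 2

/-- Among all functionals of norm one, `a / |a|` has the largest variance on `Ω`. -/
def LargestVariance (Ω : Set (V n)) (a : V n) : Prop :=
  a ≠ 0 ∧ ∀ b : V n, ‖a‖ ^ 2 * secondMoment Ω b ≤ ‖b‖ ^ 2 * secondMoment Ω a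

/-- The section of `Ω` by the hyperplane orthogonal to `a`. -/
def hyperplaneSection (Ω : Set (V n)) (a : V n) : Set (V n) := {x | x ∈ Ω ∧ inner ℝ a x = (0 : ℝ)}

/-- Hausdorff measure of codimension one. -/
noncomputable def area (S : Set (V n)) : ℝ≥0∞ := μH[(n : ℝ) - 1] S

/-- The hyperplane inequality of the question, with constant `C * m * (d + 1)`, for every
symmetric convex body with linear symmetries `g` such that `g - 1` has rank at most `m` and whose
common fixed vectors form a space of dimension at most `d`. -/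
theorem result :
    ∃ C : ℝ≥0, ∀ (n m d : ℕ) (Ω : Set (V n)) (G : Set (V n →ₗ[ℝ] V n)),
      1 ≤ n → 1 ≤ m → IsBody Ω → IsSymmetrySet m d Ω G →
      (∃ a, LargestVariance Ω a) ∧
      ∀ a, LargestVariance Ω a → ∀ E : Set (V n), MeasurableSet E → E ⊆ Ω →
        volume E = volume Ω / 2 →
          area (hyperplaneSection Ω a) ≤ (C * m * (d + 1) : ℝ≥0) * area (Ω ∩ frontier E) := by
  refine ⟨9227200000, ?_⟩
  intro n m d Ω G hn hm ⟨hne, ho, hb, hc, hs⟩ ⟨hG, hd⟩
  obtain ⟨n, rfl⟩ : ∃ k, n = k + 1 := ⟨n - 1, by omega⟩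
  obtain ⟨h1, h2⟩ := Pool.Agent.H84.Sym.final2 hm ho hc hb hne hs
    (fun g hg => (hG g hg).1) (fun g hg => (hG g hg).2) hd
  refine ⟨h1, fun a ha E hE hEΩ hEv => ?_⟩
  have h3 := h2 a ha.1 ha.2 E hE hEΩ hEv
  have h4 : (((n + 1 : ℕ) : ℝ) - 1) = (n : ℝ) := by push_cast; ring
  simp only [area, h4]
  exact h3

end Pool.Agent.Results.MP_dc1397_gt.LinearSymmetries
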