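import Pool.Agent.H19.KL.Final

set_option autoImplicit false

open MeasureTheory
open scoped ENNReal NNReal

namespace Pool.Agent.Results.MP_dc1397_gt.SubspacesLp

/-- Euclidean space `ℝ^n`. -/
abbrev V (n : ℕ) : Type := EuclideanSpace ℝ (Fin n)

/-- `Ω` is a nonempty open bounded convex set with `Ω = -Ω`. -/
def IsBody {n : ℕ} (Ω : Set (V n)) : Prop :=
  Ω.Nonempty ∧ IsOpen Ω ∧ Bornology.IsBounded Ω ∧ Convex ℝ Ω ∧ ∀ x ∈ Ω, -x ∈ Ω

/-- The second moment of the functional `b` on `Ω`. -/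
noncomputable def secondMoment {n : ℕ} (Ω : Set (V n)) (b : V n) : ℝ := ∫ x in Ω, (inner ℝ b x) ^ 2

/-- Among all functionals of norm one, `a / |a|` has the largest variance on `Ω`. -/
def LargestVariance {n : ℕ} (Ω : Set (V n)) (a : V n) : Prop :=
  a ≠ 0 ∧ ∀ b : V n, ‖a‖ ^ 2 * secondMoment Ω b ≤ ‖b‖ ^ 2 * secondMoment Ω a

/-- The section of `Ω` by the hyperplane orthogonal to `a`. -/
def hyperplaneSection {n : ℕ} (Ω : Set (V n)) (a : V n) : Set (V n) :=
  {x | x ∈ Ω ∧ inner ℝ a x = (0 : ℝ)}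

/-- Hausdorff measure of codimension one. -/
noncomputable def area {n : ℕ} (S : Set (V n)) : ℝ≥0∞ := μH[(n : ℝ) - 1] S

/-- The hyperplane inequality of the question for `Ω`, with constant `C`: for every `a` of largest
variance (and such an `a` exists) and every measurable `E ⊆ Ω` of half the volume. -/
def HyperplaneInequality {n : ℕ} (Ω : Set (V n)) (C : ℝ) : Prop :=
  (∃ a, LargestVariance Ω a) ∧
    ∀ a, LargestVariance Ω a → ∀ E : Set (V n), MeasurableSet E → E ⊆ Ω →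
      volume E = volume Ω / 2 →
        area (hyperplaneSection Ω a) ≤ ENNReal.ofReal C * area (Ω ∩ frontier E)

/-- Orlicz functions with indices in `[p, q]`: even functions `φ`, `C¹` on `ℝ` and `C²` on
`(0, ∞)`, with `φ 0 = 0`, `φ' > 0` and `(p - 1) φ' s ≤ s φ'' s ≤ (q - 1) φ' s` for `s > 0`.
Example: `|s| ^ p` for `p = q > 1`. -/
structure OrliczFunction (p q : ℝ) (φ : ℝ → ℝ) : Prop where
  zero : φ 0 = 0
  even : ∀ s, φ (-s) = φ s
  contDiff_one : ContDiff ℝ 1 φ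
  contDiffOn_two : ContDiffOn ℝ 2 φ (Set.Ioi 0)
  deriv_pos : ∀ s, 0 < s → 0 < deriv φ s
  lower : ∀ s, 0 < s → (p - 1) * deriv φ s ≤ s * deriv (deriv φ) s
  upper : ∀ s, 0 < s → s * deriv (deriv φ) s ≤ (q - 1) * deriv φ s

/-- The open unit ball, in the coordinates `x`, of the span of the functions `v_1, …, v_n` in the
Musielak-Orlicz space of the functions `φ_ω`: all `x` with `∫ φ_ω(x_1 v_1(ω) + … + x_n v_n(ω)) < 1`. -/
def modularBall {n : ℕ} {α : Type*} [MeasurableSpace α] (ν : Measure α) (v : α → V n)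
    (φ : α → ℝ → ℝ) : Set (V n) := {x | ∫ ω, φ ω (inner ℝ (v ω) x) ∂ν < 1}

/-- For all `1 < p ≤ q < ∞` there is `C`, depending only on `p` and `q`, such that the hyperplane
inequality of the question with the constant `C` holds for the unit balls of all finite-dimensional
subspaces of Musielak-Orlicz spaces with indices in `[p, q]`, in arbitrary linear coordinates. -/
theorem result :
    ∀ p q : ℝ, 1 < p → p ≤ q → ∃ C : ℝ, ∀ (n : ℕ) (α : Type*) (_ : MeasurableSpace α)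
      (ν : Measure α) (v : α → V n) (φ : α → ℝ → ℝ), 1 ≤ n → Measurable v →
      (∀ ω, OrliczFunction p q (φ ω)) → (∀ s, Measurable fun ω => φ ω s) →
      (∀ x, Integrable (fun ω => φ ω (inner ℝ (v ω) x)) ν) →
      (∀ x, x ≠ 0 → ¬ ∀ᵐ ω ∂ν, inner ℝ (v ω) x = (0 : ℝ)) →
      IsBody (modularBall ν v φ) ∧ HyperplaneInequality (modularBall ν v φ) C := by
  intro p q hp hpq
  refine ⟨7300 * Pool.Agent.H19.KL.CC (min p 2) (max q 4), ?_⟩
  intro n α _ ν v φ hn hv hφ hφm hi hne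
  obtain ⟨n, rfl⟩ : ∃ k, n = k + 1 := ⟨n - 1, by omega⟩
  have hφ' : ∀ ω, Pool.Agent.H73.Lp.Orl p q (φ ω) := fun ω =>
    ⟨(hφ ω).zero, (hφ ω).even, (hφ ω).contDiff_one, (hφ ω).contDiffOn_two, (hφ ω).deriv_pos,
      (hφ ω).lower, (hφ ω).upper⟩
  obtain ⟨h0, h1, h2⟩ := Pool.Agent.H19.KL.mus_final n α _ ν v φ p q hp hpq hv hφm hφ' hi hne
  refine ⟨h0, h1, fun a ha E hE hEΩ hEv => ?_⟩
  have h3 := h2 a ha.1 ha.2 E hE hEΩ hEv
  have h4 : (((n + 1 : ℕ) : ℝ) - 1) = (n : ℝ) := by push_cast; ring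
  simp only [area, h4]
  exact h3

end Pool.Agent.Results.MP_dc1397_gt.SubspacesLp
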