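import Pool.Agent.H20.KF.PerimHyp

set_option autoImplicit false

open MeasureTheory Measure
open scoped ENNReal

namespace Pool.Agent.Results.MP_dc1397_gt.UniversalConstant

/-- Euclidean space of dimension `n + 1`. -/
abbrev Space (n : ℕ) : Type := EuclideanSpace ℝ (Fin (n + 1))

/-- `Ω` is a nonempty open bounded convex set, symmetric about the origin. -/
def IsBody {n : ℕ} (Ω : Set (Space n)) : Prop :=
  IsOpen Ω ∧ Convex ℝ Ω ∧ Bornology.IsBounded Ω ∧ (∀ x ∈ Ω, -x ∈ Ω) ∧ Ω.Nonempty

/-- Divergence of a vector field. -/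
noncomputable def divergence {n : ℕ} (φ : Space n → Space n) (x : Space n) : ℝ :=
  ∑ i, (fderiv ℝ φ x (EuclideanSpace.single i 1)) i

/-- Admissible vector fields: of class `C^1`, with compact support contained in `Ω`, of norm at
most one at each point. -/
def Admissible {n : ℕ} (Ω : Set (Space n)) (φ : Space n → Space n) : Prop :=
  ContDiff ℝ 1 φ ∧ HasCompactSupport φ ∧ tsupport φ ⊆ Ω ∧ ∀ x, ‖φ x‖ ≤ 1

/-- The perimeter of `E` relative to `Ω`: the supremum of the integrals over `E` of the divergence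
of the admissible vector fields. -/
noncomputable def perimeter {n : ℕ} (Ω E : Set (Space n)) : ℝ≥0∞ :=
  ⨆ (φ : Space n → Space n) (_ : Admissible Ω φ), ENNReal.ofReal (∫ x in E, divergence φ x)

/-- The `n`-dimensional Hausdorff measure in the space of dimension `n + 1`, in the usual
normalisation. -/
noncomputable def area {n : ℕ} (S : Set (Space n)) : ℝ≥0∞ := μHE[n] S

/-- The hyperplane inequality of the question for ALL symmetric bodies and ALL half-volume sets,
with a constant which does not depend on anything. -/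
theorem result :
    ∃ C : ℝ, 0 < C ∧ ∀ (n : ℕ) (Ω : Set (Space n)), IsBody Ω →
      ∃ a : Space n, ‖a‖ = 1 ∧
        ∀ E : Set (Space n), MeasurableSet E → E ⊆ Ω → volume E = volume Ω / 2 →
          area {x | x ∈ Ω ∧ inner ℝ a x = (0 : ℝ)} ≤ ENNReal.ofReal C * perimeter Ω E := by
  obtain ⟨C, hC, H⟩ := Pool.Agent.H20.KF.Perim.hyper_per
  refine ⟨C, hC, ?_⟩
  rintro n Ω ⟨h1, h2, h3, h4, h5⟩
  obtain ⟨a, ha, h⟩ := H n Ω h1 h2 h3 h4 h5
  exact ⟨a, ha, fun E hE hEΩ hEv => (h E hE hEΩ hEv).1⟩

end Pool.Agent.Results.MP_dc1397_gt.UniversalConstant
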